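import Pool.Agent.Run7.h472.OH.Iface2
import Pool.Agent.Helper325.BorsukUlam

/-!
# Planar first-passage percolation, piece CHD: the chord lemma

A plane curve from `0` to `2 v` has a piece with displacement `v` (from the Borsuk-Ulam theorem).
-/

set_option autoImplicit false
open Filter Set
open scoped Topology

namespace Run7.h973.OH

open Pool.Agent.Run7.h472.OH

/-! ### the chord theorem -/

/-- the odd map -/
noncomputable def FF (Γ : ℝ → ℝ) (x : Fin 3 → ℝ) : ℝ :=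
  (Γ (0 + max (x 0) 0) - Γ (0 + max (-x 0) 0)) +
    (Γ (|x 0| + max (x 1) 0) - Γ (|x 0| + max (-x 1) 0)) +
    (Γ (|x 0| + |x 1| + max (x 2) 0) - Γ (|x 0| + |x 1| + max (-x 2) 0))

theorem FF_cont {Γ : ℝ → ℝ} (hΓ : Continuous Γ) : Continuous (FF Γ) := by
  unfold FF
  fun_prop

theorem FF_odd (Γ : ℝ → ℝ) (x : Fin 3 → ℝ) : FF Γ (-x) = -FF Γ x := by
  unfold FF
  simp only [Pi.neg_apply, abs_neg, neg_neg]
  ring

theorem sgn (y a : ℝ) : ∃ e : ℝ, (e = 1 ∨ e = -1) ∧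
    ∀ Γ : ℝ → ℝ, Γ (a + max y 0) - Γ (a + max (-y) 0) = e * (Γ (a + |y|) - Γ a) := by
  rcases le_total 0 y with h | h
  · refine ⟨1, Or.inl rfl, fun Γ => ?_⟩
    rw [max_eq_left h, max_eq_right (by linarith), abs_of_nonneg h, add_zero, one_mul]
  · refine ⟨-1, Or.inr rfl, fun Γ => ?_⟩
    rw [max_eq_right h, max_eq_left (by linarith), abs_of_nonpos h, add_zero]
    ring

theorem chord (Γ₁ Γ₂ : ℝ → ℝ) (h₁ : Continuous Γ₁) (h₂ : Continuous Γ₂) (v₁ v₂ : ℝ)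
    (e₁ : Γ₁ 1 - Γ₁ 0 = 2 * v₁) (e₂ : Γ₂ 1 - Γ₂ 0 = 2 * v₂) :
    ∃ s t : ℝ, 0 ≤ s ∧ s ≤ t ∧ t ≤ 1 ∧ Γ₁ t - Γ₁ s = v₁ ∧ Γ₂ t - Γ₂ s = v₂ := by
  obtain ⟨x, hx, hf⟩ := Pool.Agent.Helper325.BorsukUlam.borsuk_ulam 2 (fun x => ![FF Γ₁ x, FF Γ₂ x])
    (by
      apply continuous_pi
      intro i
      fin_cases i
      · exact FF_cont h₁
      · exact FF_cont h₂)
    (by
      intro x
      funext i
      fin_cases i
      · exact FF_odd Γ₁ x
      · exact FF_odd Γ₂ x)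
  have f1 : FF Γ₁ x = 0 := congrFun hf 0
  have f2 : FF Γ₂ x = 0 := congrFun hf 1
  have hs : |x 0| + |x 1| + |x 2| = 1 := by
    have h : ∑ i : Fin 3, |x i| = 1 := hx
    rwa [Fin.sum_univ_three] at h
  obtain ⟨a, ha, Ha⟩ := sgn (x 0) 0
  obtain ⟨b, hb, Hb⟩ := sgn (x 1) |x 0|
  obtain ⟨c, hc, Hc⟩ := sgn (x 2) (|x 0| + |x 1|)
  unfold FF at f1 f2
  rw [Ha, Hb, Hc, hs, zero_add] at f1 f2
  have p0 := abs_nonneg (x 0)
  have p1 := abs_nonneg (x 1)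
  have p2 := abs_nonneg (x 2)
  generalize |x 0| = s at *
  generalize |x 1| = t at *
  generalize |x 2| = r at *
  have c1 : Γ₁ s - Γ₁ 0 = v₁ → Γ₂ s - Γ₂ 0 = v₂ →
      ∃ s t : ℝ, 0 ≤ s ∧ s ≤ t ∧ t ≤ 1 ∧ Γ₁ t - Γ₁ s = v₁ ∧ Γ₂ t - Γ₂ s = v₂ :=
    fun g1 g2 => ⟨0, s, le_rfl, p0, by linarith, g1, g2⟩
  have c2 : Γ₁ (s + t) - Γ₁ s = v₁ → Γ₂ (s + t) - Γ₂ s = v₂ →
      ∃ s t : ℝ, 0 ≤ s ∧ s ≤ t ∧ t ≤ 1 ∧ Γ₁ t - Γ₁ s = v₁ ∧ Γ₂ t - Γ₂ s = v₂ :=
    fun g1 g2 => ⟨s, s + t, p0, by linarith, by linarith, g1, g2⟩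
  have c3 : Γ₁ 1 - Γ₁ (s + t) = v₁ → Γ₂ 1 - Γ₂ (s + t) = v₂ →
      ∃ s t : ℝ, 0 ≤ s ∧ s ≤ t ∧ t ≤ 1 ∧ Γ₁ t - Γ₁ s = v₁ ∧ Γ₂ t - Γ₂ s = v₂ :=
    fun g1 g2 => ⟨s + t, 1, by linarith, by linarith, le_rfl, g1, g2⟩
  have c0 : v₁ = 0 → v₂ = 0 →
      ∃ s t : ℝ, 0 ≤ s ∧ s ≤ t ∧ t ≤ 1 ∧ Γ₁ t - Γ₁ s = v₁ ∧ Γ₂ t - Γ₂ s = v₂ :=
    fun g1 g2 => ⟨0, 0, le_rfl, le_rfl, by norm_num, by rw [g1, sub_self], by rw [g2, sub_self]⟩
  rcases ha with rfl | rfl <;> rcases hb with rfl | rfl <;> rcases hc with rfl | rfl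
  · exact c0 (by linarith) (by linarith)
  · exact c3 (by linarith) (by linarith)
  · exact c2 (by linarith) (by linarith)
  · exact c1 (by linarith) (by linarith)
  · exact c1 (by linarith) (by linarith)
  · exact c2 (by linarith) (by linarith)
  · exact c3 (by linarith) (by linarith)
  · exact c0 (by linarith) (by linarith)

/-! ### interpolation -/

/-- the piecewise linear interpolation -/
noncomputable def G (u : ℕ → ℝ) (m : ℕ) (t : ℝ) : ℝ :=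
  u 0 + ∑ k ∈ Finset.range m, max 0 (min (t - k) 1) * (u (k + 1) - u k)

theorem G_cont (u : ℕ → ℝ) (m : ℕ) : Continuous (G u m) := by
  unfold G
  fun_prop

theorem G_succ (u : ℕ → ℝ) (m : ℕ) (t : ℝ) :
    G u (m + 1) t = G u m t + max 0 (min (t - m) 1) * (u (m + 1) - u m) := by
  unfold G
  rw [Finset.sum_range_succ, add_assoc]

theorem G_end (u : ℕ → ℝ) (m : ℕ) : ∀ t : ℝ, (m : ℝ) ≤ t → G u m t = u m := by
  induction m with
  | zero => intro t _; simp [G]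
  | succ m ih =>
    intro t ht
    push_cast at ht
    rw [G_succ, ih t (by linarith), min_eq_right (by linarith), max_eq_right (by norm_num)]
    ring

theorem G_zero (u : ℕ → ℝ) (m : ℕ) : G u m 0 = u 0 := by
  unfold G
  have : ∀ k ∈ Finset.range m, max 0 (min ((0 : ℝ) - k) 1) * (u (k + 1) - u k) = 0 := by
    intro k _
    have h1 : (0 : ℝ) ≤ k := Nat.cast_nonneg k
    rw [max_eq_left, zero_mul]
    exact (min_le_left _ _).trans (by linarith)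
  rw [Finset.sum_eq_zero this, add_zero]

theorem G_near (u : ℕ → ℝ) (m : ℕ) (hu : ∀ k < m, |u (k + 1) - u k| ≤ 1) :
    ∀ t : ℝ, 0 ≤ t → t ≤ m → |G u m t - u ⌊t⌋₊| ≤ 1 := by
  induction m with
  | zero =>
    intro t h0 h1
    have : t = 0 := le_antisymm (by simpa using h1) h0
    rw [this]
    simp [G]
  | succ m ih =>
    intro t h0 h1
    push_cast at h1
    rcases le_or_gt t m with h | h
    · rw [G_succ, max_eq_left ((min_le_left _ _).trans (by linarith)), zero_mul, add_zero]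
      exact ih (fun k hk => hu k (by omega)) t h0 h
    · rcases lt_or_eq_of_le h1 with h2 | h2
      · have hfl : ⌊t⌋₊ = m := by
          rw [Nat.floor_eq_iff h0]
          exact ⟨h.le, h2⟩
        rw [hfl, G_succ, G_end u m t h.le, min_eq_left (by linarith), max_eq_right (by linarith)]
        have h3 := hu m (by omega)
        rw [add_sub_cancel_left, abs_mul, abs_of_nonneg (by linarith : 0 ≤ t - m)]
        calc (t - m) * |u (m + 1) - u m| ≤ 1 * 1 := by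
              apply mul_le_mul (by linarith) h3 (abs_nonneg _) (by norm_num)
          _ = 1 := one_mul _
      · have e : t = ((m + 1 : ℕ) : ℝ) := by rw [h2]; push_cast; rfl
        rw [e, Nat.floor_natCast, G_end u (m + 1) _ le_rfl, sub_self, abs_zero]
        norm_num

/-- **CHD** -/
theorem t_CHD : S_CHD := by
  intro m p hp v hv
  have hs : ∀ k < m, |((p (k + 1)).1 : ℝ) - ((p k).1 : ℝ)| ≤ 1 ∧ |((p (k + 1)).2 : ℝ) - ((p k).2 : ℝ)| ≤ 1 := by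
    intro k hk
    have h := hp k hk
    have h1 := abs_nonneg ((p (k + 1)).1 - (p k).1)
    have h2 := abs_nonneg ((p (k + 1)).2 - (p k).2)
    constructor
    · have h3 : |(p (k + 1)).1 - (p k).1| ≤ 1 := by omega
      exact_mod_cast h3
    · have h3 : |(p (k + 1)).2 - (p k).2| ≤ 1 := by omega
      exact_mod_cast h3
  obtain ⟨u₁, hu₁⟩ : ∃ u : ℕ → ℝ, u = fun k => ((p k).1 : ℝ) := ⟨_, rfl⟩
  obtain ⟨u₂, hu₂⟩ : ∃ u : ℕ → ℝ, u = fun k => ((p k).2 : ℝ) := ⟨_, rfl⟩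
  have hm0 : (0 : ℝ) ≤ m := Nat.cast_nonneg m
  have q1 : (p m).1 - (p 0).1 = 2 * v.1 := by
    have := congrArg Prod.fst hv
    rw [Prod.fst_sub, Prod.fst_add] at this
    omega
  have q2 : (p m).2 - (p 0).2 = 2 * v.2 := by
    have := congrArg Prod.snd hv
    rw [Prod.snd_sub, Prod.snd_add] at this
    omega
  obtain ⟨s, t, hs0, hst, ht1, g1, g2⟩ := chord (fun y => G u₁ m (m * y)) (fun y => G u₂ m (m * y))
    ((G_cont u₁ m).comp (continuous_const.mul continuous_id))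
    ((G_cont u₂ m).comp (continuous_const.mul continuous_id)) v.1 v.2
    (by
      show G u₁ m (m * 1) - G u₁ m (m * 0) = 2 * v.1
      rw [mul_one, mul_zero, G_end u₁ m _ le_rfl, G_zero, hu₁]
      show ((p m).1 : ℝ) - ((p 0).1 : ℝ) = 2 * (v.1 : ℝ)
      exact_mod_cast q1)
    (by
      show G u₂ m (m * 1) - G u₂ m (m * 0) = 2 * v.2
      rw [mul_one, mul_zero, G_end u₂ m _ le_rfl, G_zero, hu₂]
      show ((p m).2 : ℝ) - ((p 0).2 : ℝ) = 2 * (v.2 : ℝ)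
      exact_mod_cast q2)
  have hs1 : s ≤ 1 := hst.trans ht1
  have ht0 : 0 ≤ t := hs0.trans hst
  have a1 : 0 ≤ (m : ℝ) * s := mul_nonneg hm0 hs0
  have a2 : (m : ℝ) * s ≤ m := mul_le_of_le_one_right hm0 hs1
  have b1 : 0 ≤ (m : ℝ) * t := mul_nonneg hm0 ht0
  have b2 : (m : ℝ) * t ≤ m := mul_le_of_le_one_right hm0 ht1
  refine ⟨⌊(m : ℝ) * s⌋₊, ⌊(m : ℝ) * t⌋₊, Nat.floor_le_floor (by gcongr), ?_, ?_⟩
  · have := Nat.floor_le_floor b2
    rwa [Nat.floor_natCast] at this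
  have n1 := G_near u₁ m (fun k hk => by rw [hu₁]; exact (hs k hk).1) _ a1 a2
  have n2 := G_near u₁ m (fun k hk => by rw [hu₁]; exact (hs k hk).1) _ b1 b2
  have n3 := G_near u₂ m (fun k hk => by rw [hu₂]; exact (hs k hk).2) _ a1 a2
  have n4 := G_near u₂ m (fun k hk => by rw [hu₂]; exact (hs k hk).2) _ b1 b2
  generalize ⌊(m : ℝ) * s⌋₊ = a at *
  generalize ⌊(m : ℝ) * t⌋₊ = b at *
  rw [abs_le] at n1 n2 n3 n4
  have k1 : |((p b).1 : ℝ) - (p a).1 - v.1| ≤ 2 := by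
    rw [hu₁] at n1 n2 g1
    rw [abs_le]
    constructor <;> linarith [n1.1, n1.2, n2.1, n2.2]
  have k2 : |((p b).2 : ℝ) - (p a).2 - v.2| ≤ 2 := by
    rw [hu₂] at n3 n4 g2
    rw [abs_le]
    constructor <;> linarith [n3.1, n3.2, n4.1, n4.2]
  have k1' : |(p b).1 - (p a).1 - v.1| ≤ 2 := by exact_mod_cast k1
  have k2' : |(p b).2 - (p a).2 - v.2| ≤ 2 := by exact_mod_cast k2
  rw [abs_le] at k1' k2'
  unfold nm
  apply max_le
  · rw [Prod.fst_sub, Prod.fst_sub]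
    omega
  · rw [Prod.snd_sub, Prod.snd_sub]
    omega

end Run7.h973.OH
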