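import Pool.Agent.Run7.h472.OH.Iface2

/-!
# Planar first-passage percolation, piece LDT: the large deviation bound implies polynomial bounds
-/

set_option autoImplicit false
open MeasureTheory ProbabilityTheory Filter Set
open scoped ENNReal Topology

namespace Run7.h973.OH

open Pool.Agent.Run7.h472.OH
open Pool.Agent.N662.FP

/-- a stretched exponential is smaller than every power -/
theorem exp_pow_le {a η q : ℝ} (ha : 0 < a) (hη : 0 < η) (_hq : 0 < q) : ∃ K : ℝ, 0 < K ∧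
    ∀ x : ℝ, 1 ≤ x → Real.exp (-(a * x ^ η)) ≤ K * x ^ (-q) := by
  obtain ⟨N, hN⟩ := exists_nat_ge (q / η)
  refine ⟨(N.factorial : ℝ) / a ^ N, by positivity, fun x hx => ?_⟩
  have hx0 : 0 < x := by linarith
  have h1 : (a * x ^ η) ^ N / N.factorial ≤ Real.exp (a * x ^ η) :=
    Real.pow_div_factorial_le_exp _ (by positivity) N
  have h2 : x ^ q ≤ (x ^ η) ^ N := by
    rw [← Real.rpow_natCast, ← Real.rpow_mul hx0.le]
    apply Real.rpow_le_rpow_of_exponent_le hx
    rw [div_le_iff₀ hη] at hN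
    linarith
  have h3 : a ^ N * x ^ q / N.factorial ≤ Real.exp (a * x ^ η) := by
    refine le_trans ?_ h1
    rw [mul_pow]
    gcongr
  rw [Real.exp_neg, Real.rpow_neg hx0.le]
  have h4 : 0 < x ^ q := by positivity
  have h5 : 0 < a ^ N * x ^ q / N.factorial := by positivity
  calc (Real.exp (a * x ^ η))⁻¹ ≤ (a ^ N * x ^ q / N.factorial)⁻¹ := by gcongr
    _ = _ := by
      field_simp

/-- **LDT** -/
theorem t_LDT : S_LDT := by
  intro Ω _ _ T μ c C L hC hT0 κ κ2 A hκ hκ2 hκ1 hA hLD q hq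
  have hk2 : 0 < κ2 := hκ.trans hκ2
  have hη : 0 < 1 - κ / κ2 := by
    rw [sub_pos, div_lt_one hk2]
    exact hκ2
  obtain ⟨a, ha⟩ : ∃ a : ℝ, a = C ^ (1 - 1 / κ2) / A := ⟨_, rfl⟩
  have hC0 := hC.C_pos
  have hc0 := hC.c_pos
  have ha0 : 0 < a := by
    rw [ha]
    positivity
  obtain ⟨K, hK, hKx⟩ := exp_pow_le ha0 hη hq
  obtain ⟨B, hB⟩ : ∃ B : ℝ, B = max 1 (A * K) := ⟨_, rfl⟩
  have hB1 : 1 ≤ B := by rw [hB]; exact le_max_left _ _
  have hB2 : A * K ≤ B := by rw [hB]; exact le_max_right _ _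
  have hB0 : 0 < B := by linarith
  refine ⟨B, hB0, fun v => ?_⟩
  obtain ⟨x, hx⟩ : ∃ x : ℝ, x = 1 + (nm v : ℝ) := ⟨_, rfl⟩
  have hx1 : 1 ≤ x := by
    rw [hx]
    have : (0 : ℝ) ≤ nm v := Nat.cast_nonneg _
    linarith
  have hx0 : 0 < x := by linarith
  rw [← hx]
  simp only
  obtain ⟨t, ht⟩ : ∃ t : ℝ, t = μ (em v) := ⟨_, rfl⟩
  rw [← ht]
  have htx : t ≤ C * x := by
    rw [ht, hx]
    refine (hC.hi v).trans ?_
    have : (nm v : ℝ) ≤ 1 + nm v := by linarith
    gcongr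
  rcases Nat.eq_zero_or_pos (nm v) with h0 | h0
  · have e1 : x = 1 := by rw [hx, h0]; norm_num
    rw [e1, Real.one_rpow, Real.one_rpow, mul_one]
    exact measureReal_le_one.trans hB1
  have hn1 : (1 : ℝ) ≤ nm v := by exact_mod_cast h0
  have ht0 : 0 < t := by
    rw [ht]
    refine lt_of_lt_of_le ?_ (hC.lo v)
    positivity
  by_cases hδ : B * x ^ (1 - κ) ≤ t
  · obtain ⟨δ, hδe⟩ : ∃ δ : ℝ, δ = B * x ^ (1 - κ) / t := ⟨_, rfl⟩
    have hδ0 : 0 < δ := by rw [hδe]; positivity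
    have hδ1 : δ ≤ 1 := by
      rw [hδe, div_le_one ht0]
      exact hδ
    have h1 := hLD v δ hδ0 hδ1
    rw [← ht] at h1
    have e1 : (1 - δ) * t = t - B * x ^ (1 - κ) := by
      rw [hδe]
      field_simp
    rw [e1] at h1
    refine h1.trans ?_
    have h2 : a * x ^ (1 - κ / κ2) ≤ δ ^ (1 / κ2) * t / A := by
      rw [ha, div_mul_eq_mul_div]
      apply div_le_div_of_nonneg_right _ hA.le
      have e2 : δ ^ (1 / κ2) * t = (B * x ^ (1 - κ)) ^ (1 / κ2) * t ^ (1 - 1 / κ2) := by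
        rw [hδe, Real.div_rpow (by positivity) ht0.le, Real.rpow_sub ht0, Real.rpow_one]
        ring
      have h3 : C ^ (1 - 1 / κ2) * x ^ (1 - 1 / κ2) ≤ t ^ (1 - 1 / κ2) := by
        rw [← Real.mul_rpow hC0.le hx0.le]
        apply Real.rpow_le_rpow_of_nonpos ht0 htx
        rw [sub_nonpos, one_le_div hk2]
        exact hκ1.le
      have h4 : x ^ ((1 - κ) * (1 / κ2)) ≤ (B * x ^ (1 - κ)) ^ (1 / κ2) := by
        rw [Real.rpow_mul hx0.le]
        apply Real.rpow_le_rpow (by positivity) _ (by positivity)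
        have : 0 < x ^ (1 - κ) := by positivity
        nlinarith
      rw [e2]
      calc C ^ (1 - 1 / κ2) * x ^ (1 - κ / κ2) =
          x ^ ((1 - κ) * (1 / κ2)) * (C ^ (1 - 1 / κ2) * x ^ (1 - 1 / κ2)) := by
            have e3 : x ^ (1 - κ / κ2) = x ^ ((1 - κ) * (1 / κ2)) * x ^ (1 - 1 / κ2) := by
              rw [← Real.rpow_add hx0]
              congr 1
              field_simp
              ring
            rw [e3]
            ring
        _ ≤ _ := by gcongr
    calc A * Real.exp (-(δ ^ (1 / κ2) * t / A)) ≤ A * Real.exp (-(a * x ^ (1 - κ / κ2))) := by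
          gcongr
      _ ≤ A * (K * x ^ (-q)) := by
          have := hKx x hx1
          gcongr
      _ = A * K * x ^ (-q) := by ring
      _ ≤ B * x ^ (-q) := by gcongr
  · rw [not_le] at hδ
    have h1 : (volume : Measure Ω).real {ω | T ω v ≤ t - B * x ^ (1 - κ)} = 0 := by
      have h2 : (volume : Measure Ω) {ω | T ω v ≤ t - B * x ^ (1 - κ)} = 0 := by
        refine measure_mono_null ?_ (ae_iff.1 (hT0 v))
        intro ω hω
        simp only [mem_ofPred_eq] at hω ⊢
        linarith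
      unfold Measure.real
      rw [h2]
      rfl
    rw [h1]
    positivity

end Run7.h973.OH
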