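import Pool.Agent.Run7.h472.OH.Iface2

/-!
# Planar first-passage percolation, piece MUP: moments from an exponential tail
-/

set_option autoImplicit false
open MeasureTheory ProbabilityTheory Filter Set
open scoped ENNReal Topology

namespace Run7.h973.OH

open Pool.Agent.Run7.h472.OH

/-- the summands -/
noncomputable def ms (k : ℕ) (d : ℝ) (j : ℕ) : ℝ := ((j : ℝ) + 2) ^ k * Real.exp (-(1 + d + d * j))

theorem ms_nonneg (k : ℕ) (d : ℝ) (j : ℕ) : 0 ≤ ms k d j := by
  unfold ms
  positivity

theorem ms_summable (k : ℕ) {d : ℝ} (hd : 0 < d) : Summable (ms k d) := by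
  have h1 := Real.summable_pow_mul_exp_neg_nat_mul k hd
  have h2 := (summable_nat_add_iff 2).2 h1
  have h3 := h2.mul_left (Real.exp (2 * d - (1 + d)))
  refine h3.congr fun j => ?_
  unfold ms
  push_cast
  rw [mul_left_comm, ← Real.exp_add]
  congr 2
  ring

/-- the pointwise bound -/
theorem pw (k : ℕ) (m r t : ℝ) (hr : 0 < r) :
    ENNReal.ofReal ((max (t - m) 0) ^ k) ≤ ENNReal.ofReal (r ^ k) +
      ∑' j : ℕ, ENNReal.ofReal ((((j : ℝ) + 2) * r) ^ k) * (if m + r + j * r ≤ t then 1 else 0) := by
  by_cases h : t - m ≤ r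
  · refine le_trans ?_ le_self_add
    apply ENNReal.ofReal_le_ofReal
    exact pow_le_pow_left₀ (le_max_right _ _) (max_le h hr.le) k
  · rw [not_le] at h
    refine le_trans ?_ le_add_self
    obtain ⟨j, hj⟩ : ∃ j : ℕ, j = ⌊(t - m - r) / r⌋₊ := ⟨_, rfl⟩
    have h0 : 0 ≤ (t - m - r) / r := div_nonneg (by linarith) hr.le
    have h1 : (j : ℝ) ≤ (t - m - r) / r := by
      rw [hj]
      exact Nat.floor_le h0
    have h2 : (t - m - r) / r < j + 1 := by
      rw [hj]
      exact Nat.lt_floor_add_one _
    rw [le_div_iff₀ hr] at h1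
    rw [div_lt_iff₀ hr] at h2
    have h3 : m + r + j * r ≤ t := by linarith
    refine le_trans ?_ (ENNReal.le_tsum j)
    rw [if_pos h3, mul_one]
    apply ENNReal.ofReal_le_ofReal
    rw [max_eq_left (by linarith)]
    exact pow_le_pow_left₀ (by linarith) (by linarith) k

theorem mup_meas (k : ℕ) (d : ℝ) (hd : 0 < d) (Ω : Type) [MeasureSpace Ω]
    [IsProbabilityMeasure (volume : Measure Ω)] (T : Ω → ℝ) (hT : Measurable T) (m r : ℝ) (hr : 0 < r)
    (htail : ∀ u : ℝ, 0 ≤ u →
      (volume : Measure Ω).real {ω | m + r + u ≤ T ω} ≤ Real.exp (-(1 + d + d * u / r))) :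
    Integrable (fun ω => (max (T ω - m) 0) ^ k) (volume : Measure Ω) ∧
    ∫ ω, (max (T ω - m) 0) ^ k ∂(volume : Measure Ω) ≤ (1 + ∑' j, ms k d j) * r ^ k := by
  have hs := ms_summable k hd
  have hs0 : 0 ≤ ∑' j, ms k d j := tsum_nonneg fun j => ms_nonneg k d j
  have hA : ∀ j : ℕ, MeasurableSet {ω | m + r + j * r ≤ T ω} := fun j =>
    measurableSet_le measurable_const hT
  have hlin : ∫⁻ ω, ENNReal.ofReal ((max (T ω - m) 0) ^ k) ∂(volume : Measure Ω) ≤
      ENNReal.ofReal ((1 + ∑' j, ms k d j) * r ^ k) := by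
    refine (lintegral_mono fun ω => pw k m r (T ω) hr).trans ?_
    rw [lintegral_add_left measurable_const, lintegral_const, measure_univ, mul_one]
    rw [lintegral_tsum]
    · have h1 : ∀ j : ℕ, ∫⁻ ω, ENNReal.ofReal ((((j : ℝ) + 2) * r) ^ k) *
          (if m + r + j * r ≤ T ω then 1 else 0) ∂(volume : Measure Ω) ≤
          ENNReal.ofReal (ms k d j * r ^ k) := by
        intro j
        have e1 : (fun ω => ENNReal.ofReal ((((j : ℝ) + 2) * r) ^ k) *
            (if m + r + j * r ≤ T ω then (1 : ℝ≥0∞) else 0)) =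
            fun ω => ENNReal.ofReal ((((j : ℝ) + 2) * r) ^ k) *
              ({ω | m + r + j * r ≤ T ω}.indicator (fun _ => (1 : ℝ≥0∞)) ω) := by
          funext ω
          congr 1
        rw [e1, lintegral_const_mul _ (measurable_const.indicator (hA j)),
          lintegral_indicator (hA j), lintegral_const, Measure.restrict_apply MeasurableSet.univ,
          univ_inter, one_mul]
        have h2 := htail (j * r) (by positivity)
        have h3 : (volume : Measure Ω) {ω | m + r + j * r ≤ T ω} =
            ENNReal.ofReal ((volume : Measure Ω).real {ω | m + r + j * r ≤ T ω}) := by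
          rw [ofReal_measureReal]
        rw [h3, ← ENNReal.ofReal_mul (by positivity)]
        apply ENNReal.ofReal_le_ofReal
        have h4 : d * (j * r) / r = d * j := by
          field_simp
        rw [h4] at h2
        unfold ms
        calc (((j : ℝ) + 2) * r) ^ k * (volume : Measure Ω).real {ω | m + r + j * r ≤ T ω} ≤
            (((j : ℝ) + 2) * r) ^ k * Real.exp (-(1 + d + d * j)) := by gcongr
          _ = _ := by rw [mul_pow]; ring
      refine (add_le_add le_rfl (ENNReal.tsum_le_tsum h1)).trans ?_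
      rw [← ENNReal.ofReal_tsum_of_nonneg (fun j => mul_nonneg (ms_nonneg k d j) (by positivity))
        (hs.mul_right _), ← ENNReal.ofReal_add (by positivity)
        (tsum_nonneg fun j => mul_nonneg (ms_nonneg k d j) (by positivity)), tsum_mul_right]
      apply ENNReal.ofReal_le_ofReal
      linarith
    · intro j
      refine (measurable_const.mul ?_).aemeasurable
      exact Measurable.ite (hA j) measurable_const measurable_const
  have hmeas : Measurable fun ω => (max (T ω - m) 0) ^ k :=
    ((hT.sub_const m).max measurable_const).pow_const k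
  have hnn : ∀ ω, 0 ≤ (max (T ω - m) 0) ^ k := fun ω => pow_nonneg (le_max_right _ _) k
  have hint : Integrable (fun ω => (max (T ω - m) 0) ^ k) (volume : Measure Ω) := by
    refine ⟨hmeas.aestronglyMeasurable, ?_⟩
    rw [hasFiniteIntegral_iff_ofReal (Eventually.of_forall hnn)]
    exact hlin.trans_lt ENNReal.ofReal_lt_top
  refine ⟨hint, ?_⟩
  rw [integral_eq_lintegral_of_nonneg_ae (Eventually.of_forall hnn) hmeas.aestronglyMeasurable]
  have h5 := ENNReal.toReal_mono ENNReal.ofReal_ne_top hlin
  rwa [ENNReal.toReal_ofReal (by positivity)] at h5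

/-- **MUP** -/
theorem t_MUP : S_MUP := by
  intro k d hd
  have hs0 : 0 ≤ ∑' j, ms k d j := tsum_nonneg fun j => ms_nonneg k d j
  refine ⟨1 + ∑' j, ms k d j, by linarith, ?_⟩
  intro Ω _ _ T hT m r hr htail
  have hTm := hT.measurable_mk
  have hae := hT.ae_eq_mk
  have htail' : ∀ u : ℝ, 0 ≤ u →
      (volume : Measure Ω).real {ω | m + r + u ≤ hT.mk T ω} ≤ Real.exp (-(1 + d + d * u / r)) := by
    intro u hu
    have h1 : {ω | m + r + u ≤ hT.mk T ω} =ᵐ[(volume : Measure Ω)] {ω | m + r + u ≤ T ω} := by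
      filter_upwards [hae] with ω hω
      apply propext
      show m + r + u ≤ hT.mk T ω ↔ m + r + u ≤ T ω
      rw [hω]
    have h2 : (volume : Measure Ω).real {ω | m + r + u ≤ hT.mk T ω} =
        (volume : Measure Ω).real {ω | m + r + u ≤ T ω} := by
      unfold Measure.real
      rw [measure_congr h1]
    rw [h2]
    exact htail u hu
  obtain ⟨h1, h2⟩ := mup_meas k d hd Ω (hT.mk T) hTm m r hr htail'
  have hc : (fun ω => (max (hT.mk T ω - m) 0) ^ k) =ᵐ[(volume : Measure Ω)]
      fun ω => (max (T ω - m) 0) ^ k := by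
    filter_upwards [hae] with ω hω
    rw [hω]
  refine ⟨h1.congr hc, ?_⟩
  rw [← integral_congr_ae hc]
  exact h2

end Run7.h973.OH
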