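import Pool.Agent.Run7.h472.OH.Iface2

/-!
# Planar first-passage percolation, piece NRF: iteration of the doubling inequality
-/

set_option autoImplicit false
open MeasureTheory ProbabilityTheory Filter Set
open scoped ENNReal Topology

namespace Run7.h973.OH

open Pool.Agent.Run7.h472.OH
open Pool.Agent.N662.FP

theorem nm_smul (k : ℕ) (v : ℤ × ℤ) : nm (((k : ℕ) : ℤ) • v) = k * nm v := by
  unfold nm
  rw [Prod.smul_fst, Prod.smul_snd, smul_eq_mul, smul_eq_mul, Int.natAbs_mul, Int.natAbs_mul,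
    Int.natAbs_natCast]
  rcases le_total v.1.natAbs v.2.natAbs with h | h
  · rw [max_eq_right h, max_eq_right (Nat.mul_le_mul_left k h)]
  · rw [max_eq_left h, max_eq_left (Nat.mul_le_mul_left k h)]

theorem nm_zero_iff (v : ℤ × ℤ) (h : nm v = 0) : v = 0 := by
  unfold nm at h
  have h1 : v.1.natAbs = 0 := by
    have := le_max_left v.1.natAbs v.2.natAbs
    omega
  have h2 : v.2.natAbs = 0 := by
    have := le_max_right v.1.natAbs v.2.natAbs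
    omega
  exact Prod.ext (Int.natAbs_eq_zero.1 h1) (Int.natAbs_eq_zero.1 h2)

/-- the powers grow slowly -/
theorem grow {κ : ℝ} (hκ1 : κ < 1) (n i : ℕ) :
    (1 + ((2 ^ i * n : ℕ) : ℝ)) ^ (1 - κ) / 2 ^ i ≤ (1 + (n : ℝ)) ^ (1 - κ) * ((2 : ℝ) ^ (-κ)) ^ i := by
  have h1 : (1 + ((2 ^ i * n : ℕ) : ℝ)) ≤ 2 ^ i * (1 + (n : ℝ)) := by
    push_cast
    have : (1 : ℝ) ≤ 2 ^ i := one_le_pow₀ (by norm_num)
    linarith
  have h2 : (1 + ((2 ^ i * n : ℕ) : ℝ)) ^ (1 - κ) ≤ (2 ^ i * (1 + (n : ℝ))) ^ (1 - κ) :=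
    Real.rpow_le_rpow (by positivity) h1 (by linarith)
  have h3 : ((2 : ℝ) ^ i * (1 + (n : ℝ))) ^ (1 - κ) = 2 ^ i * ((1 + (n : ℝ)) ^ (1 - κ) * ((2 : ℝ) ^ (-κ)) ^ i) := by
    rw [Real.mul_rpow (by positivity) (by positivity)]
    have h4 : ((2 : ℝ) ^ i) ^ (1 - κ) = 2 ^ i * ((2 : ℝ) ^ (-κ)) ^ i := by
      rw [← Real.rpow_natCast 2 i, ← Real.rpow_mul (by norm_num), ← Real.rpow_natCast ((2 : ℝ) ^ (-κ)) i,
        ← Real.rpow_mul (by norm_num), ← Real.rpow_add (by norm_num)]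
      congr 1
      ring
    rw [h4]
    ring
  rw [h3] at h2
  rw [div_le_iff₀ (by positivity)]
  linarith

/-- the iterated doubling inequality -/
theorem iter {h : ℤ × ℤ → ℝ} {κ C : ℝ} (hκ : 0 < κ) (hκ1 : κ < 1) (hC : 0 < C)
    (hd : ∀ v : ℤ × ℤ, 2 * h v ≤ h (v + v) + C * (1 + (nm v : ℝ)) ^ (1 - κ)) (v : ℤ × ℤ) (i : ℕ) :
    h v ≤ h (((2 ^ i : ℕ) : ℤ) • v) / 2 ^ i +
      C / 2 * (1 + (nm v : ℝ)) ^ (1 - κ) * ∑ l ∈ Finset.range i, ((2 : ℝ) ^ (-κ)) ^ l := by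
  induction i with
  | zero => simp
  | succ i ih =>
    have h1 := hd (((2 ^ i : ℕ) : ℤ) • v)
    have e1 : (((2 ^ i : ℕ) : ℤ) • v + ((2 ^ i : ℕ) : ℤ) • v) = ((2 ^ (i + 1) : ℕ) : ℤ) • v := by
      rw [← add_smul]
      congr 1
      push_cast
      ring
    rw [e1, nm_smul] at h1
    have h2 := grow hκ1 (nm v) i
    have h3 : (0 : ℝ) < 2 ^ i := by positivity
    rw [Finset.sum_range_succ, mul_add]
    have h4 : h (((2 ^ i : ℕ) : ℤ) • v) / 2 ^ i ≤ h (((2 ^ (i + 1) : ℕ) : ℤ) • v) / 2 ^ (i + 1) +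
        C / 2 * ((1 + ((2 ^ i * nm v : ℕ) : ℝ)) ^ (1 - κ) / 2 ^ i) := by
      have e2 : h (((2 ^ (i + 1) : ℕ) : ℤ) • v) / 2 ^ (i + 1) +
          C / 2 * ((1 + ((2 ^ i * nm v : ℕ) : ℝ)) ^ (1 - κ) / 2 ^ i) =
          (h (((2 ^ (i + 1) : ℕ) : ℤ) • v) + C * (1 + ((2 ^ i * nm v : ℕ) : ℝ)) ^ (1 - κ)) / 2 / 2 ^ i := by
        generalize h (((2 ^ (i + 1) : ℕ) : ℤ) • v) = Y
        generalize (1 + ((2 ^ i * nm v : ℕ) : ℝ)) ^ (1 - κ) = Z
        rw [pow_succ]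
        field_simp
      rw [e2]
      apply div_le_div_of_nonneg_right _ h3.le
      linarith
    have h5 : C / 2 * ((1 + ((2 ^ i * nm v : ℕ) : ℝ)) ^ (1 - κ) / 2 ^ i) ≤
        C / 2 * (1 + (nm v : ℝ)) ^ (1 - κ) * ((2 : ℝ) ^ (-κ)) ^ i := by
      rw [mul_assoc]
      exact mul_le_mul_of_nonneg_left h2 (by positivity)
    linarith

/-- **NRF** -/
theorem t_NRF : S_NRF := by
  intro Ω _ _ X _ κ q C hκ hκ1 hq hC hLT hd
  obtain ⟨A, hA, hLT⟩ := hLT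
  obtain ⟨ρ, hρ⟩ : ∃ ρ : ℝ, ρ = (2 : ℝ) ^ (-κ) := ⟨_, rfl⟩
  have hρ0 : 0 < ρ := by rw [hρ]; positivity
  have hρ1 : ρ < 1 := by
    rw [hρ]
    exact Real.rpow_lt_one_of_one_lt_of_neg (by norm_num) (by linarith)
  have h1ρ : 0 < 1 - ρ := by linarith
  refine ⟨C / (1 - ρ), by positivity, ?_⟩
  intro v m hm
  rcases Nat.eq_zero_or_pos (nm v) with h0 | h0
  · -- the point zero
    have hv := nm_zero_iff v h0
    obtain ⟨ω, hω⟩ := hm.exists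
    have h1 : Tendsto (fun n : ℕ => D (env X ω) 0 ((n : ℤ) • v) / (n : ℝ)) atTop (𝓝 0) := by
      simp only [hv, smul_zero]
      exact tendsto_const_div_atTop_nhds_zero_nat _
    have h2 := tendsto_nhds_unique hω h1
    have h3 := hd v
    rw [hv, add_zero] at h3
    rw [hv, h2]
    have h4 : (nm (0 : ℤ × ℤ) : ℝ) = 0 := by
      rw [← hv, h0]
      norm_num
    rw [h4, add_zero, Real.one_rpow, mul_one] at h3 ⊢
    have h5 : C ≤ C / (1 - ρ) := by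
      rw [le_div_iff₀ h1ρ]
      nlinarith
    linarith
  -- other points
  obtain ⟨n, hn⟩ : ∃ n : ℕ, n = nm v := ⟨_, rfl⟩
  rw [← hn] at h0
  have hn1 : (1 : ℝ) ≤ n := by exact_mod_cast h0
  apply le_of_forall_pos_le_add
  intro ε hε
  obtain ⟨F, hF⟩ : ∃ F : ℕ → Set Ω, F = fun j => {ω | ∀ i : ℕ, j ≤ i →
      D (env X ω) 0 (((2 ^ i : ℕ) : ℤ) • v) / ((2 ^ i : ℕ) : ℝ) ≤ m + ε / 2} := ⟨_, rfl⟩
  have hFmono : Monotone F := by
    intro a b hab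
    rw [hF]
    intro ω hω i hi
    exact hω i (hab.trans hi)
  have hFU : (1 : ℝ≥0∞) ≤ (volume : Measure Ω) (⋃ j, F j) := by
    have h1 : (volume : Measure Ω) (⋃ j, F j)ᶜ = 0 := by
      refine measure_mono_null ?_ (ae_iff.1 hm)
      intro ω hω hω2
      apply hω
      have h2 : Tendsto (fun i : ℕ => 2 ^ i) atTop (atTop : Filter ℕ) :=
        tendsto_pow_atTop_atTop_of_one_lt (by norm_num)
      have h3 := hω2.comp h2
      have h4 : ∀ᶠ i : ℕ in atTop, D (env X ω) 0 (((2 ^ i : ℕ) : ℤ) • v) / ((2 ^ i : ℕ) : ℝ) ≤ m + ε / 2 := by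
        have h5 := h3.eventually (ge_mem_nhds (show m < m + ε / 2 by linarith))
        filter_upwards [h5] with i hi
        exact hi
      obtain ⟨j, hj⟩ := eventually_atTop.1 h4
      rw [mem_iUnion]
      refine ⟨j, ?_⟩
      rw [hF]
      exact hj
    have h2 : (volume : Measure Ω) univ ≤ (volume : Measure Ω) (⋃ j, F j) + (volume : Measure Ω) (⋃ j, F j)ᶜ := by
      rw [← union_compl_self (⋃ j, F j)]
      exact measure_union_le _ _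
    rwa [h1, add_zero, measure_univ] at h2
  have hFt := tendsto_measure_iUnion_atTop (μ := (volume : Measure Ω)) hFmono
  have hF2 : ∀ᶠ j : ℕ in atTop, (1 / 2 : ℝ≥0∞) < (volume : Measure Ω) (F j) := by
    have h1 : (1 / 2 : ℝ≥0∞) < (volume : Measure Ω) (⋃ j, F j) := by
      refine lt_of_lt_of_le ?_ hFU
      rw [one_div]
      exact ENNReal.inv_lt_one.2 (by norm_num)
    exact hFt.eventually (lt_mem_nhds h1)
  have hpow : Tendsto (fun i : ℕ => ρ ^ i) atTop (𝓝 0) := tendsto_pow_atTop_nhds_zero_of_lt_one hρ0.le hρ1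
  have hG : ∀ᶠ i : ℕ in atTop, A * ((1 + (n : ℝ)) ^ (1 - κ) * ρ ^ i) ≤ ε / 2 := by
    have h1 : Tendsto (fun i : ℕ => A * ((1 + (n : ℝ)) ^ (1 - κ) * ρ ^ i)) atTop (𝓝 (A * ((1 + (n : ℝ)) ^ (1 - κ) * 0))) :=
      (hpow.const_mul _).const_mul _
    rw [mul_zero, mul_zero] at h1
    exact h1.eventually (ge_mem_nhds (by linarith))
  have hP : ∀ᶠ i : ℕ in atTop, A * (1 + ((2 ^ i * n : ℕ) : ℝ)) ^ (-q) < 1 / 2 := by
    have h1 : Tendsto (fun i : ℕ => (1 : ℝ) + ((2 ^ i * n : ℕ) : ℝ)) atTop atTop := by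
      have h2 : Tendsto (fun i : ℕ => (2 : ℝ) ^ i) atTop atTop := tendsto_pow_atTop_atTop_of_one_lt (by norm_num)
      refine tendsto_atTop_mono (fun i => ?_) h2
      push_cast
      have : (0 : ℝ) < 2 ^ i := by positivity
      nlinarith
    have h3 : Tendsto (fun i : ℕ => A * (1 + ((2 ^ i * n : ℕ) : ℝ)) ^ (-q)) atTop (𝓝 (A * 0)) :=
      ((tendsto_rpow_neg_atTop hq).comp h1).const_mul _
    rw [mul_zero] at h3
    exact h3.eventually (gt_mem_nhds (by norm_num))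
  obtain ⟨j, hj⟩ := eventually_atTop.1 hF2
  obtain ⟨i, ⟨hi1, hi2⟩, hi3⟩ := ((hG.and hP).and (eventually_ge_atTop j)).exists
  have hB := hLT (((2 ^ i : ℕ) : ℤ) • v)
  rw [nm_smul, ← hn] at hB
  have hex : ∃ ω ∈ F j, ¬ (D (env X ω) 0 (((2 ^ i : ℕ) : ℤ) • v) ≤
      HH X (((2 ^ i : ℕ) : ℤ) • v) - A * (1 + ((2 ^ i * n : ℕ) : ℝ)) ^ (1 - κ)) := by
    by_contra hcon
    push Not at hcon
    have h1 : (volume : Measure Ω) (F j) ≤ (volume : Measure Ω) {ω | D (env X ω) 0 (((2 ^ i : ℕ) : ℤ) • v) ≤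
      HH X (((2 ^ i : ℕ) : ℤ) • v) - A * (1 + ((2 ^ i * n : ℕ) : ℝ)) ^ (1 - κ)} :=
      measure_mono fun ω hω => hcon ω hω
    have h2 := hj j le_rfl
    have h3 := h2.trans_le h1
    have h4 : (volume : Measure Ω) {ω | D (env X ω) 0 (((2 ^ i : ℕ) : ℤ) • v) ≤
        HH X (((2 ^ i : ℕ) : ℤ) • v) - A * (1 + ((2 ^ i * n : ℕ) : ℝ)) ^ (1 - κ)} < ENNReal.ofReal (1 / 2) := by
      rw [← ofReal_measureReal]
      exact (ENNReal.ofReal_lt_ofReal_iff (by norm_num)).2 (hB.trans_lt hi2)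
    rw [ENNReal.ofReal_div_of_pos (by norm_num), ENNReal.ofReal_one, ENNReal.ofReal_ofNat] at h4
    exact absurd (h3.trans h4) (lt_irrefl _)
  obtain ⟨ω, hω1, hω2⟩ := hex
  rw [not_le] at hω2
  rw [hF] at hω1
  have h6 := hω1 i hi3
  have h7 := iter hκ hκ1 hC hd v i
  rw [← hn, ← hρ] at h7
  have h8 : ∑ l ∈ Finset.range i, ρ ^ l ≤ 1 / (1 - ρ) := by
    rw [geom_sum_eq hρ1.ne, ← neg_div_neg_eq, neg_sub, neg_sub]
    apply div_le_div_of_nonneg_right _ h1ρ.le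
    have : 0 < ρ ^ i := by positivity
    linarith
  have h9 := grow hκ1 n i
  rw [← hρ] at h9
  have hp : (0 : ℝ) < 2 ^ i := by positivity
  have e3 : ((2 ^ i : ℕ) : ℝ) = 2 ^ i := by push_cast; rfl
  rw [e3] at h6
  have h10 : HH X (((2 ^ i : ℕ) : ℤ) • v) / 2 ^ i ≤ m + ε / 2 + ε / 2 := by
    have h11 : HH X (((2 ^ i : ℕ) : ℤ) • v) ≤ D (env X ω) 0 (((2 ^ i : ℕ) : ℤ) • v) +
        A * (1 + ((2 ^ i * n : ℕ) : ℝ)) ^ (1 - κ) := by linarith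
    calc HH X (((2 ^ i : ℕ) : ℤ) • v) / 2 ^ i ≤ (D (env X ω) 0 (((2 ^ i : ℕ) : ℤ) • v) +
        A * (1 + ((2 ^ i * n : ℕ) : ℝ)) ^ (1 - κ)) / 2 ^ i := by gcongr
      _ = D (env X ω) 0 (((2 ^ i : ℕ) : ℤ) • v) / 2 ^ i + A * ((1 + ((2 ^ i * n : ℕ) : ℝ)) ^ (1 - κ) / 2 ^ i) := by
          ring
      _ ≤ (m + ε / 2) + A * ((1 + (n : ℝ)) ^ (1 - κ) * ρ ^ i) := by gcongr
      _ ≤ _ := by linarith
  have h12 : C / 2 * (1 + (n : ℝ)) ^ (1 - κ) * ∑ l ∈ Finset.range i, ρ ^ l ≤ C / (1 - ρ) * (1 + (n : ℝ)) ^ (1 - κ) := by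
    calc C / 2 * (1 + (n : ℝ)) ^ (1 - κ) * ∑ l ∈ Finset.range i, ρ ^ l ≤ C / 2 * (1 + (n : ℝ)) ^ (1 - κ) * (1 / (1 - ρ)) := by
          gcongr
      _ = (C / (1 - ρ) * (1 + (n : ℝ)) ^ (1 - κ)) / 2 := by ring
      _ ≤ _ := by
          have : 0 < C / (1 - ρ) * (1 + (n : ℝ)) ^ (1 - κ) := by positivity
          linarith
  rw [← hn]
  linarith

end Run7.h973.OH
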